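import Pool.Agent.H20.KH.Stmts
import Pool.Agent.H33.KG.T1P

/-!
# Project KH, module TP2: quadratic covariances against a matrix
(adapted from module T1P of helper33)
-/

set_option autoImplicit false
set_option linter.unusedSectionVars false

open MeasureTheory Set Filter Topology
open scoped ContDiff

namespace Pool.Agent.H20.KH

open Pool.Agent.H84 Pool.Agent.H84.Sym Pool.Agent.H84.Sym.P2x Pool.Agent.H84.Sym.C29
open Pool.Agent.H19.KL
open Pool.Agent.H73.KG

section

variable {E : Type} [NormedAddCommGroup E] [InnerProductSpace ℝ E]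
    [FiniteDimensional ℝ E] [MeasurableSpace E] [BorelSpace E]
variable {ι : Type} [Fintype ι]

/-- approximate solutions of `- L u = ψ - mean` for continuous functions of exponential growth -/
theorem TP2_dense (b : OrthonormalBasis ι ℝ E) {U ψ : E → ℝ} {t C : ℝ} (hU : Pot U t C)
    (hp : IsProbabilityMeasure (mu U)) (hψ : GC ψ) {ε : ℝ} (hε : 0 < ε) :
    ∃ u : E → ℝ, Tst u ∧ ∫ x, (LO b U u x + (ψ x - ∫ z, ψ z ∂(mu U))) ^ 2 ∂(mu U) ≤ ε := by
  set δ : ℝ := Real.sqrt ε / 4 with hδ
  have hδ0 : 0 < δ := by positivity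
  have hδ2 : δ ^ 2 = ε / 16 := by
    rw [hδ, div_pow, Real.sq_sqrt hε.le]; norm_num
  obtain ⟨g, hg, hgψ, -⟩ := hψ.1.exists_contDiff_approx 1 (ε := fun _ => δ) continuous_const
    (fun _ => hδ0)
  have hd : ∀ x, |g x - ψ x| ≤ δ := fun x => by
    have := (hgψ x).le
    rwa [Real.dist_eq] at this
  have hgc : Continuous g := hg.continuous
  have hgG : GC g := by
    have h1 : GC (fun x => g x - ψ x) := ⟨hgc.sub hψ.1, Gr.of_bdd hd⟩
    have h2 := hψ.add h1
    have e : (fun x => ψ x + (g x - ψ x)) = g := by funext x; ring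
    rwa [e] at h2
  obtain ⟨u, hu, hA⟩ := dense_range_gr b hU hg hgG.2 (c := ∫ x, g x ∂(mu U))
    (by simp only [probReal_univ, mul_one]) (ε := ε / 4) (by positivity)
  refine ⟨u, hu, ?_⟩
  have hLG := T1P_LO b hU hu
  have hc : |(∫ x, g x ∂(mu U)) - ∫ x, ψ x ∂(mu U)| ≤ δ := by
    rw [← integral_sub (hgG.integrable hU) (hψ.integrable hU)]
    have h1 := norm_integral_le_of_norm_le_const (μ := mu U) (C := δ)
      (f := fun x => g x - ψ x) (Eventually.of_forall fun x => by
        rw [Real.norm_eq_abs]; exact hd x)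
    rw [probReal_univ, mul_one, Real.norm_eq_abs] at h1
    exact h1
  have key : ∀ x, (LO b U u x + (ψ x - ∫ z, ψ z ∂(mu U))) ^ 2 ≤
      2 * (LO b U u x + (g x - ∫ x, g x ∂(mu U))) ^ 2 + 8 * δ ^ 2 := by
    intro x
    set a := LO b U u x + (g x - ∫ x, g x ∂(mu U)) with ha
    set r := (∫ x, g x ∂(mu U)) - (∫ x, ψ x ∂(mu U)) - (g x - ψ x) with hr
    have e : LO b U u x + (ψ x - ∫ z, ψ z ∂(mu U)) = a + r := by rw [ha, hr]; ring
    rw [e]
    have h1 : |r| ≤ 2 * δ := by
      have h2 := abs_sub ((∫ x, g x ∂(mu U)) - (∫ x, ψ x ∂(mu U))) (g x - ψ x)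
      rw [← hr] at h2
      linarith [hd x]
    have h3 : r ^ 2 ≤ (2 * δ) ^ 2 := by
      rw [← sq_abs r]
      exact pow_le_pow_left₀ (abs_nonneg r) h1 2
    nlinarith [sq_nonneg (a - r)]
  have hint1 : Integrable (fun x => (LO b U u x + (ψ x - ∫ z, ψ z ∂(mu U))) ^ 2) (mu U) :=
    ((hLG.add (hψ.sub (GC.const _))).sq).integrable hU
  have hint2 : Integrable (fun x => 2 * (LO b U u x + (g x - ∫ x, g x ∂(mu U))) ^ 2) (mu U) :=
    (((hLG.add (hgG.sub (GC.const _))).sq).integrable hU).const_mul _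
  have h1 := integral_mono hint1 (hint2.add (integrable_const (8 * δ ^ 2))) key
  have h2 : ∫ x, (2 * (LO b U u x + (g x - ∫ x, g x ∂(mu U))) ^ 2 + 8 * δ ^ 2) ∂(mu U) =
      2 * (∫ x, (LO b U u x + (g x - ∫ x, g x ∂(mu U))) ^ 2 ∂(mu U)) + 8 * δ ^ 2 := by
    rw [integral_add hint2 (integrable_const _), integral_const_mul, integral_const,
      probReal_univ, one_smul]
  refine h1.trans ?_
  refine (le_of_eq h2).trans ?_
  rw [hδ2]
  linarith

theorem TP2_core {C : ℝ} (hK : KBD C) (hB : BASStmt E) (U : E → ℝ) (t : ℝ) (hP : PP U t)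
    (ht : t ≤ 1) (h5 : CovLe U 5) (b : OrthonormalBasis ι ℝ E) (m : ι → ℝ) (β : ℝ)
    (hm : ∀ i, |m i| ≤ β) (ψ : E → ℝ) (hψ : GC ψ) :
    2 * ∑ i, m i * q2 U ψ (b i) (b i) ≤ cv U ψ ψ + C * β ^ 2 * Fintype.card ι := by
  classical
  obtain ⟨⟨C', hU⟩, hp⟩ := id hP
  set q : E → ℝ := fun x => ∑ i, m i * (li (b i) x - mn U (b i)) ^ 2 with hq
  obtain ⟨hq1, hqG, hqD⟩ := T1P_q b m (fun i => mn U (b i))
  set c : ℝ := ∫ z, ψ z ∂(mu U) with hc
  set h : E → ℝ := fun x => ψ x - c with hh
  have hhG : GC h := hψ.sub (GC.const c)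
  set S : ℝ := cv U ψ ψ with hS
  have hS0 : 0 ≤ S := BAS_nonneg hU hp hψ
  -- the quadratic covariances
  have hT : ∑ i, m i * q2 U ψ (b i) (b i) = ∫ x, h x * q x ∂(mu U) := by
    have h1 : ∀ i, q2 U ψ (b i) (b i) = ∫ x, h x * (li (b i) x - mn U (b i)) ^ 2 ∂(mu U) := by
      intro i
      have hG : GC (fun x => (li (b i) x - mn U (b i)) * (li (b i) x - mn U (b i))) :=
        ((BAS_li (b i)).sub (GC.const _)).mul ((BAS_li (b i)).sub (GC.const _))
      have i1 : Integrable (fun x => ψ x * ((li (b i) x - mn U (b i)) *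
          (li (b i) x - mn U (b i)))) (mu U) := (hψ.mul hG).integrable hU
      have i2 := hG.integrable hU
      unfold q2 H73.KG.cv
      rw [← hc, ← integral_const_mul, ← integral_sub i1 (i2.const_mul c)]
      congr 1
      funext x
      simp only [hh]
      ring
    have e : (fun x => h x * q x) = fun x => ∑ i, m i * (h x *
        (li (b i) x - mn U (b i)) ^ 2) := by
      funext x
      simp only [hq, Finset.mul_sum]
      exact Finset.sum_congr rfl fun i _ => by ring
    rw [e, integral_finsetSum]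
    · refine Finset.sum_congr rfl fun i _ => ?_
      rw [integral_const_mul, h1 i]
    · intro i _
      exact ((hhG.mul ((BAS_li (b i)).sub (GC.const _)).sq).integrable hU).const_mul _
  set Q2 : ℝ := ∫ x, q x ^ 2 ∂(mu U) with hQ2
  have hQ20 : 0 ≤ Q2 := integral_nonneg fun x => sq_nonneg _
  have hH2 : ∫ x, h x ^ 2 ∂(mu U) ≤ S := by
    have h1 := BAS_cen hU hp hψ hψ
    have h3 : ∫ x, h x ^ 2 ∂(mu U) = cv U ψ ψ := by
      rw [h1]
      simp only [hh, pow_two]
      rfl
    rw [h3]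
  -- approximation
  have key : ∀ η : ℝ, 0 < η → η ≤ 1 → 2 * ∫ x, h x * q x ∂(mu U) ≤
      S + C * β ^ 2 * Fintype.card ι + η * (Q2 + S + 3) := by
    intro η hη hη1
    obtain ⟨u, hu, hA⟩ := TP2_dense b hU hp hψ (ε := η ^ 2) (by positivity)
    set A : E → ℝ := fun x => LO b U u x + h x with hAdef
    have hA' : ∫ x, A x ^ 2 ∂(mu U) ≤ η ^ 2 := hA
    have hLG := T1P_LO b hU hu
    have hAG : GC A := hLG.add hhG
    have iA2 : Integrable (fun x => A x ^ 2) (mu U) := hAG.sq.integrable hU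
    have iq2 : Integrable (fun x => q x ^ 2) (mu U) := hqG.sq.integrable hU
    have ih2 : Integrable (fun x => h x ^ 2) (mu U) := hhG.sq.integrable hU
    -- (a)
    have ha : ∫ x, A x * q x ∂(mu U) ≤ η / 2 * (Q2 + 1) := by
      have h1 : ∫ x, A x * q x ∂(mu U) ≤ ∫ x, (η / 2 * q x ^ 2 + 1 / (2 * η) * A x ^ 2) ∂(mu U) := by
        refine integral_mono ((hAG.mul hqG).integrable hU)
          ((iq2.const_mul _).add (iA2.const_mul _)) fun x => ?_
        have h2 : 0 ≤ (η * q x - A x) ^ 2 / (2 * η) := by positivity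
        have h3 : (η * q x - A x) ^ 2 / (2 * η) = η / 2 * q x ^ 2 - A x * q x +
            1 / (2 * η) * A x ^ 2 := by
          field_simp
          ring
        show A x * q x ≤ η / 2 * q x ^ 2 + 1 / (2 * η) * A x ^ 2
        linarith
      rw [integral_add (iq2.const_mul _) (iA2.const_mul _), integral_const_mul,
        integral_const_mul] at h1
      have h4 : 1 / (2 * η) * ∫ x, A x ^ 2 ∂(mu U) ≤ 1 / (2 * η) * η ^ 2 :=
        mul_le_mul_of_nonneg_left hA' (by positivity)
      have h5 : 1 / (2 * η) * η ^ 2 = η / 2 := by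
        field_simp
      rw [h5] at h4
      linarith
    -- (b)
    have hb : ∫ x, LO b U u x * q x ∂(mu U) =
        -(2 * ∑ i, m i * cv U (li (b i)) (D (b i) u)) := by
      rw [green b (hU.smooth.of_le (by norm_num)) (hu.1.of_le (by norm_cast)) hq1 (Or.inl hu.2)]
      congr 1
      have hDG : ∀ i, GC (D (b i) u) := by
        intro i
        have hu1 : ContDiff ℝ 1 u := hu.1.of_le (by norm_cast)
        have h1 : Continuous (D (b i) u) :=
          (contDiff_D (m := 0) hu1 (by norm_num) (b i)).continuous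
        obtain ⟨A, hA⟩ := h1.bounded_above_of_compact_support (hcs_D hu.2 (b i))
        exact ⟨h1, Gr.of_bdd fun x => by simpa using hA x⟩
      have e : (fun x => ∑ i, D (b i) u x * D (b i) q x) = fun x => ∑ i, (2 * m i) *
          (li (b i) x * D (b i) u x - mn U (b i) * D (b i) u x) := by
        funext x
        refine Finset.sum_congr rfl fun i _ => ?_
        rw [hqD i x]
        ring
      have iD : ∀ i, Integrable (fun x => li (b i) x * D (b i) u x) (mu U) := fun i =>
        ((BAS_li _).mul (hDG i)).integrable hU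
      have iD2 : ∀ i, Integrable (fun x => mn U (b i) * D (b i) u x) (mu U) := fun i =>
        ((hDG i).integrable hU).const_mul _
      have iS : ∀ i, Integrable (fun x => (2 * m i) *
          (li (b i) x * D (b i) u x - mn U (b i) * D (b i) u x)) (mu U) := fun i =>
        ((iD i).sub (iD2 i)).const_mul _
      rw [e, integral_finsetSum _ fun i _ => iS i, Finset.mul_sum]
      refine Finset.sum_congr rfl fun i _ => ?_
      rw [integral_const_mul, integral_sub (iD i) (iD2 i), integral_const_mul]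
      unfold H73.KG.cv H73.KG.mn
      ring
    -- (c)
    have hcc : 4 * (∑ i, m i * cv U (li (b i)) (D (b i) u)) ≤
        (∫ x, (LO b U u x) ^ 2 ∂(mu U)) + C * β ^ 2 * Fintype.card ι := by
      have h1 := hK E U t hP ht ι b (cm b U) (BAS_herm b U)
        ((hB.2.2.2.2.2.1 U t hP ι b).2 5 h5) m β hm u hu
      have h2 := bochner b (q := fun _ => 0) hU.smooth continuous_const
        (fun x v => by
          have := hU.hess x v
          have h3 := mul_nonneg hU.pos.le (sq_nonneg ‖v‖)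
          linarith) (hu.1.of_le (by norm_cast)) hu.2
      simp only [zero_mul, integral_zero, add_zero] at h2
      simp only [sub_self, ne_eq, OfNat.ofNat_ne_zero, not_false_eq_true, zero_pow,
        Finset.sum_const_zero, zero_div, add_zero] at h1
      linarith
    -- (d)
    have hd : ∫ x, (LO b U u x) ^ 2 ∂(mu U) ≤ S + η * (S + 2) := by
      have e : ∀ x, (LO b U u x) ^ 2 ≤ (1 + 1 / η) * A x ^ 2 + (1 + η) * h x ^ 2 := by
        intro x
        have h1 : LO b U u x = A x - h x := by simp only [hAdef]; ring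
        rw [h1]
        have h2 : 0 ≤ (A x + η * h x) ^ 2 / η := by positivity
        have h3 : (A x + η * h x) ^ 2 / η = 1 / η * A x ^ 2 + 2 * (A x * h x) + η * h x ^ 2 := by
          field_simp
          ring
        nlinarith
      have h1 : ∫ x, (LO b U u x) ^ 2 ∂(mu U) ≤
          ∫ x, ((1 + 1 / η) * A x ^ 2 + (1 + η) * h x ^ 2) ∂(mu U) :=
        integral_mono (hLG.sq.integrable hU) ((iA2.const_mul _).add (ih2.const_mul _)) e
      rw [integral_add (iA2.const_mul _) (ih2.const_mul _), integral_const_mul,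
        integral_const_mul] at h1
      have h2 : (1 + 1 / η) * ∫ x, A x ^ 2 ∂(mu U) ≤ (1 + 1 / η) * η ^ 2 :=
        mul_le_mul_of_nonneg_left hA' (by positivity)
      have h3 : (1 + 1 / η) * η ^ 2 = η ^ 2 + η := by
        field_simp
      have h4 : (1 + η) * ∫ x, h x ^ 2 ∂(mu U) ≤ (1 + η) * S :=
        mul_le_mul_of_nonneg_left hH2 (by positivity)
      nlinarith
    -- end
    have hsum : ∫ x, h x * q x ∂(mu U) = (∫ x, A x * q x ∂(mu U)) -
        ∫ x, LO b U u x * q x ∂(mu U) := by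
      rw [← integral_sub ((hAG.mul hqG).integrable hU) ((hLG.mul hqG).integrable hU)]
      congr 1
      funext x
      simp only [hAdef]
      ring
    rw [hsum, hb]
    nlinarith
  rw [hT]
  refine le_of_forall_pos_le_add fun δ hδ => ?_
  have hKp : 0 < Q2 + S + 3 := by linarith
  have h1 := key (min 1 (δ / (Q2 + S + 3))) (lt_min one_pos (div_pos hδ hKp)) (min_le_left _ _)
  have h2 : min 1 (δ / (Q2 + S + 3)) * (Q2 + S + 3) ≤ δ := by
    calc min 1 (δ / (Q2 + S + 3)) * (Q2 + S + 3) ≤ δ / (Q2 + S + 3) * (Q2 + S + 3) :=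
          mul_le_mul_of_nonneg_right (min_le_right _ _) hKp.le
      _ = δ := by field_simp
  linarith

end

theorem tp2_thm (hB : ∀ (E : Type) [NormedAddCommGroup E] [InnerProductSpace ℝ E]
    [FiniteDimensional ℝ E] [MeasurableSpace E] [BorelSpace E], BASStmt E) (hK : KFBStmt) :
    TP2Stmt := by
  obtain ⟨C, hC1, hK⟩ := hK
  refine ⟨1 + C, by linarith, ?_⟩
  intro E _ _ _ _ _ U t hP h5 ι _ b m β hm hβ ψ hψ
  -- reduction to `t ≤ 1`
  have hP' : PP U (min t 1) := (hB E).1 U t (min t 1) hP (lt_min hP.1.choose_spec.pos one_pos)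
    (min_le_left _ _)
  have core : ∀ (m : ι → ℝ) (β : ℝ), (∀ i, |m i| ≤ β) →
      2 * ∑ i, m i * q2 U ψ (b i) (b i) ≤ cv U ψ ψ + C * β ^ 2 * Fintype.card ι := fun m β hm =>
    TP2_core hK (hB E) U _ hP' (min_le_right _ _) h5 b m β hm ψ hψ
  set T : ℝ := ∑ i, m i * q2 U ψ (b i) (b i) with hT
  set S : ℝ := cv U ψ ψ with hS
  have hS0 : 0 ≤ S := ((hB E).2.2.2.1 U t hP ψ ψ hψ hψ).2.1
  set k : ℝ := (Fintype.card ι : ℝ) with hk
  have hk0 : 0 ≤ k := Nat.cast_nonneg _
  -- scaling
  have scal : ∀ l : ℝ, 2 * (l * T) ≤ S + C * (|l| * β) ^ 2 * k := by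
    intro l
    have h1 := core (fun i => l * m i) (|l| * β) (fun i => by
      rw [abs_mul]
      exact mul_le_mul_of_nonneg_left (hm i) (abs_nonneg l))
    have h2 : ∑ i, l * m i * q2 U ψ (b i) (b i) = l * T := by
      rw [hT, Finset.mul_sum]
      exact Finset.sum_congr rfl fun i _ => by ring
    rw [h2] at h1
    exact h1
  set w : ℝ := β * Real.sqrt k with hw
  have hw0 : 0 ≤ w := mul_nonneg hβ (Real.sqrt_nonneg k)
  have hw2 : w ^ 2 = β ^ 2 * k := by rw [hw, mul_pow, Real.sq_sqrt hk0]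
  have scal' : ∀ l : ℝ, 0 < l → 2 * (l * |T|) ≤ S + C * l ^ 2 * w ^ 2 := by
    intro l hl
    rcases abs_cases T with ⟨h, -⟩ | ⟨h, -⟩
    · have h1 := scal l
      rw [abs_of_pos hl] at h1
      rw [h, hw2]
      calc 2 * (l * T) ≤ S + C * (l * β) ^ 2 * k := h1
        _ = _ := by ring
    · have h1 := scal (-l)
      rw [abs_neg, abs_of_pos hl] at h1
      rw [h, hw2]
      calc 2 * (l * -T) = 2 * (-l * T) := by ring
        _ ≤ S + C * (l * β) ^ 2 * k := h1
        _ = _ := by ring
  have hgoal : |T| ≤ (1 + C) * (w * Real.sqrt S) := by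
    refine le_of_forall_pos_le_add fun δ hδ => ?_
    -- use a positive number close to the square root of S and w
    have hcase : ∀ s v : ℝ, 0 < s → 0 < v → S ≤ s ^ 2 → w ≤ v → |T| ≤ (1 + C) * (v * s) := by
      intro s v hs hv hSs hwv
      have h1 := scal' (s / v) (div_pos hs hv)
      have h2 : C * (s / v) ^ 2 * w ^ 2 ≤ C * s ^ 2 := by
        have h3 : w ^ 2 ≤ v ^ 2 := pow_le_pow_left₀ hw0 hwv 2
        have h4 : C * (s / v) ^ 2 * w ^ 2 ≤ C * (s / v) ^ 2 * v ^ 2 :=
          mul_le_mul_of_nonneg_left h3 (by positivity)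
        have h5 : C * (s / v) ^ 2 * v ^ 2 = C * s ^ 2 := by
          field_simp
        rwa [h5] at h4
      have h6 : 2 * (s / v * |T|) ≤ (1 + C) * s ^ 2 := by nlinarith
      have h7 : s / v * |T| ≤ (1 + C) * s ^ 2 := by
        have : 0 ≤ s / v * |T| := by positivity
        linarith
      have h8 : |T| = (s / v * |T|) * (v / s) := by field_simp
      rw [h8]
      calc (s / v * |T|) * (v / s) ≤ ((1 + C) * s ^ 2) * (v / s) :=
            mul_le_mul_of_nonneg_right h7 (by positivity)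
        _ = (1 + C) * (v * s) := by field_simp
    set a := Real.sqrt S with ha
    have ha0 : 0 ≤ a := Real.sqrt_nonneg S
    have ha2 : a ^ 2 = S := Real.sq_sqrt hS0
    have hM : 0 < (1 + C) * (a + w + 1) := by positivity
    set ρ : ℝ := min 1 (δ / ((1 + C) * (a + w + 1))) with hρ
    have hρ0 : 0 < ρ := lt_min one_pos (div_pos hδ hM)
    have hρ1 : ρ ≤ 1 := min_le_left _ _
    have hρ2 : ρ * ((1 + C) * (a + w + 1)) ≤ δ := by
      calc ρ * ((1 + C) * (a + w + 1)) ≤ δ / ((1 + C) * (a + w + 1)) * ((1 + C) * (a + w + 1)) :=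
            mul_le_mul_of_nonneg_right (min_le_right _ _) hM.le
        _ = δ := by field_simp
    have h1 := hcase (a + ρ) (w + ρ) (by positivity) (by positivity) (by nlinarith) (by linarith)
    refine h1.trans ?_
    have h2 : (w + ρ) * (a + ρ) ≤ w * a + ρ * (a + w + 1) := by nlinarith
    calc (1 + C) * ((w + ρ) * (a + ρ)) ≤ (1 + C) * (w * a + ρ * (a + w + 1)) :=
          mul_le_mul_of_nonneg_left h2 (by linarith)
      _ = (1 + C) * (w * a) + ρ * ((1 + C) * (a + w + 1)) := by ring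
      _ ≤ (1 + C) * (w * a) + δ := by linarith
  calc |T| ≤ (1 + C) * (w * Real.sqrt S) := hgoal
    _ = (1 + C) * β * Real.sqrt k * Real.sqrt S := by rw [hw]; ring

end Pool.Agent.H20.KH
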