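import Pool.Agent.H20.KH.Stmts

/-!
# Project KH, module TM2: quadratic covariances against a matrix of small rank
-/

set_option autoImplicit false

open MeasureTheory Set Filter Topology
open scoped ContDiff

namespace Pool.Agent.H20.KH

open Pool.Agent.H84 Pool.Agent.H84.Sym Pool.Agent.H84.Sym.P2x Pool.Agent.H19.KL
open Pool.Agent.H73.KG

/-- an orthonormal family is a basis of its span `Sᗮ` -/
private theorem TM2_basis (E : Type) [NormedAddCommGroup E] [InnerProductSpace ℝ E]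
    [FiniteDimensional ℝ E] (κ : Type) [Fintype κ] (e : κ → E) (he : Orthonormal ℝ e) :
    ∃ (S : Submodule ℝ E) (b : OrthonormalBasis κ ℝ Sᗮ), ∀ i, ((b i : Sᗮ) : E) = e i := by
  classical
  set T : Submodule ℝ E := Submodule.span ℝ (Set.range e) with hT
  have hTT : Tᗮᗮ = T := Submodule.orthogonal_orthogonal T
  have hem : ∀ i, e i ∈ Tᗮᗮ := by
    intro i
    rw [hTT]
    exact Submodule.subset_span ⟨i, rfl⟩
  set e' : κ → (Tᗮᗮ : Submodule ℝ E) := fun i => ⟨e i, hem i⟩ with he'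
  have hoe' : Orthonormal ℝ e' := by
    rw [orthonormal_iff_ite]
    intro i j
    have := (orthonormal_iff_ite.1 he) i j
    rw [Submodule.coe_inner]
    exact this
  have hspan : ⊤ ≤ Submodule.span ℝ (Set.range e') := by
    intro x _
    have hx : (x : E) ∈ Submodule.span ℝ (Set.range e) := by
      have h0 : (Tᗮᗮ : Submodule ℝ E) ≤ T := hTT.le
      exact h0 x.2
    have h1 : (Submodule.span ℝ (Set.range e')).map (Tᗮᗮ : Submodule ℝ E).subtype =
        Submodule.span ℝ (Set.range e) := by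
      rw [Submodule.map_span, ← Set.range_comp]
      rfl
    rw [← h1] at hx
    obtain ⟨y, hy, hyx⟩ := hx
    have : y = x := Subtype.ext hyx
    rw [← this]
    exact hy
  refine ⟨Tᗮ, OrthonormalBasis.mk hoe' hspan, fun i => ?_⟩
  rw [OrthonormalBasis.coe_mk]

theorem tm2_thm (h1 : ∀ (E : Type) [NormedAddCommGroup E] [InnerProductSpace ℝ E]
    [FiniteDimensional ℝ E] [MeasurableSpace E] [BorelSpace E], MGLStmt E)
    (h3 : ∀ (E : Type) [NormedAddCommGroup E] [InnerProductSpace ℝ E]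
    [FiniteDimensional ℝ E] [MeasurableSpace E] [BorelSpace E], SP2Stmt E)
    (h4 : ∀ (E : Type) [NormedAddCommGroup E] [InnerProductSpace ℝ E]
    [FiniteDimensional ℝ E] [MeasurableSpace E] [BorelSpace E], MQ2Stmt E)
    (h2 : TP2Stmt) : TM2Stmt := by
  obtain ⟨C, hC, h⟩ := h2
  refine ⟨C, hC, ?_⟩
  intro E _ _ _ _ _ U t hU hcov κ _ e he m β hm hβ ψ hψ
  obtain ⟨S, b, hb⟩ := TM2_basis E κ e he
  obtain ⟨hB, -, -, -, -, hCv⟩ := h1 E U t hU S
  obtain ⟨hq, -, hle⟩ := h4 E U t hU S ψ hψ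
  have hG : GC (cav S U ψ) := (h3 E U t hU S ψ ψ hψ hψ).1
  have hkey := h Sᗮ (mg S U) t hB.1 (hCv 5 hcov) κ b m β hm hβ (cav S U ψ) hG
  have e1 : ∑ i, m i * q2 U ψ (e i) (e i) =
      ∑ i, m i * q2 (mg S U) (cav S U ψ) (b i) (b i) := by
    refine Finset.sum_congr rfl fun i _ => ?_
    rw [hq, hb i]
  rw [e1]
  refine hkey.trans ?_
  exact mul_le_mul_of_nonneg_left (Real.sqrt_le_sqrt hle) (by positivity)

end Pool.Agent.H20.KH
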